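import Pool.Agent.H15.KM7.Stmts
import Pool.Agent.H32.Dense.Marg

/-!
# The local label potential: composition of labels (LOC2)
-/

set_option autoImplicit false

namespace Pool.KM7.L2

open Finset Real
open Pool.Agent.H49.Ent Pool.Agent.H32.Dense Pool.STK Pool.KA Pool.KM7

/-- The matrix of a section. -/
noncomputable def mat (q : Sec) (i j : Fin 2) : ℝ :=
  if i = 0 then 2 ^ q.h * (if j = ix q.c then 2 ^ q.p else (q.a : ℝ))
  else if j = iy q.c then 2 ^ q.h else 0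

theorem co_eq (q : Sec) (x : Fin 2 → ℝ) (i : Fin 2) : q.co x i = ∑ j, mat q i j * x j := by
  obtain ⟨c, h, p, a⟩ := q
  cases c <;> fin_cases i <;> simp [Sec.co, mat, ix, iy, Fin.sum_univ_two] <;> ring

theorem mat_det (q : Sec) :
    |mat q 0 0 * mat q 1 1 - mat q 0 1 * mat q 1 0| = 2 ^ (2 * q.h + q.p) := by
  obtain ⟨c, h, p, a⟩ := q
  have e : (2 : ℝ) ^ (2 * h + p) = 2 ^ h * 2 ^ p * 2 ^ h := by
    rw [pow_add, two_mul, pow_add]
    ring
  have hp : (0 : ℝ) < 2 ^ h * 2 ^ p * 2 ^ h := by positivity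
  cases c
  · have : mat ⟨false, h, p, a⟩ 0 0 * mat ⟨false, h, p, a⟩ 1 1 -
        mat ⟨false, h, p, a⟩ 0 1 * mat ⟨false, h, p, a⟩ 1 0 = 2 ^ h * 2 ^ p * 2 ^ h := by
      simp [mat, ix, iy]
    rw [this, abs_of_pos hp, e]
  · have : mat ⟨true, h, p, a⟩ 0 0 * mat ⟨true, h, p, a⟩ 1 1 -
        mat ⟨true, h, p, a⟩ 0 1 * mat ⟨true, h, p, a⟩ 1 0 = -(2 ^ h * 2 ^ p * 2 ^ h) := by
      simp [mat, ix, iy]
    rw [this, abs_neg, abs_of_pos hp, e]

theorem mat_le {w R : ℕ} {q : Sec} (h : Ok w R q) (i j : Fin 2) :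
    |mat q i j| ≤ 4 * 2 ^ (q.h + q.p) := by
  have h1 : (0 : ℝ) < 2 ^ q.h := by positivity
  have h2 : (1 : ℝ) ≤ 2 ^ q.p := one_le_pow₀ (by norm_num)
  have h3 : |(q.a : ℝ)| ≤ 4 * 2 ^ q.p := by exact_mod_cast h.sl
  have h4 : (0 : ℝ) < 2 ^ q.h * 2 ^ q.p := by positivity
  rw [pow_add]
  unfold mat
  split_ifs
  · rw [abs_of_pos (by positivity)]
    linarith
  · rw [abs_mul, abs_of_pos h1]
    have := mul_le_mul_of_nonneg_left h3 h1.le
    linarith
  · rw [abs_of_pos h1]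
    have := mul_le_mul_of_nonneg_left h2 h1.le
    linarith
  · rw [abs_zero]
    linarith

theorem co_inv {w R : ℕ} {q : Sec} (h : Ok w R q) (x : Fin 2 → ℝ) (i : Fin 2) :
    2 ^ w * |x i| ≤ 4 * (|q.co x 0| + |q.co x 1|) := by
  have h0 : (0 : ℝ) < 2 ^ q.h := by positivity
  have hp : (1 : ℝ) ≤ 2 ^ q.p := one_le_pow₀ (by norm_num)
  have hw : (2 : ℝ) ^ w ≤ 2 ^ q.h := pow_le_pow_right₀ (by norm_num) h.lo
  have h3 : |(q.a : ℝ)| ≤ 4 * 2 ^ q.p := by exact_mod_cast h.sl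
  -- the coarse coordinate
  have e1 : |q.co x 1| = 2 ^ q.h * |x (iy q.c)| := by
    have : q.co x 1 = 2 ^ q.h * x (iy q.c) := by simp [Sec.co]
    rw [this, abs_mul, abs_of_pos h0]
  have e0 : q.co x 0 = 2 ^ q.h * (2 ^ q.p * x (ix q.c) + q.a * x (iy q.c)) := by simp [Sec.co]
  have e2 : 2 ^ q.h * |x (ix q.c)| ≤ |q.co x 0| + 4 * |q.co x 1| := by
    have e3 : 2 ^ q.h * 2 ^ q.p * |x (ix q.c)| ≤ |q.co x 0| + |(q.a : ℝ)| * |q.co x 1| := by
      have e4 : (2 : ℝ) ^ q.h * 2 ^ q.p * x (ix q.c) =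
          q.co x 0 - 2 ^ q.h * (q.a * x (iy q.c)) := by
        rw [e0]
        ring
      have e5 : (2 : ℝ) ^ q.h * 2 ^ q.p * |x (ix q.c)| = |2 ^ q.h * 2 ^ q.p * x (ix q.c)| := by
        rw [abs_mul, abs_of_pos (show (0 : ℝ) < 2 ^ q.h * 2 ^ q.p by positivity)]
      rw [e5, e4]
      refine (abs_sub _ _).trans (add_le_add le_rfl (le_of_eq ?_))
      rw [abs_mul, abs_mul, abs_of_pos h0, e1]
      ring
    have e6 : |(q.a : ℝ)| * |q.co x 1| ≤ 4 * 2 ^ q.p * |q.co x 1| :=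
      mul_le_mul_of_nonneg_right h3 (abs_nonneg _)
    have e7 : |q.co x 0| ≤ 2 ^ q.p * |q.co x 0| := le_mul_of_one_le_left (abs_nonneg _) hp
    have e8 : (2 : ℝ) ^ q.p * (2 ^ q.h * |x (ix q.c)|) ≤
        2 ^ q.p * (|q.co x 0| + 4 * |q.co x 1|) := by
      nlinarith
    exact le_of_mul_le_mul_left e8 (by positivity)
  have n0 := abs_nonneg (q.co x 0)
  have n1 := abs_nonneg (q.co x 1)
  have hi : i = ix q.c ∨ i = iy q.c := by
    cases q.c <;> fin_cases i <;> simp [ix, iy]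
  rcases hi with hi | hi
  · rw [hi]
    have := mul_le_mul_of_nonneg_right hw (abs_nonneg (x (ix q.c)))
    linarith
  · rw [hi]
    have := mul_le_mul_of_nonneg_right hw (abs_nonneg (x (iy q.c)))
    linarith

/-- The composition of two sections. -/
theorem cmp_ex (hC : CONVStmt) : ∃ C₁ : ℝ, 0 ≤ C₁ ∧ ∀ (w R R₀ R' : ℕ) (a b : Sec),
    Ok w R₀ a → Ok 0 R' b → R₀ + R' ≤ R → ∃ (q : Sec) (T : Fin 2 → Fin 2 → ℝ), Ok w R q ∧
      (∀ i j, |T i j| ≤ C₁) ∧ (∀ (x : Fin 2 → ℝ) (i : Fin 2),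
        q.co x i = ∑ k, T i k * b.co (a.co x) k) ∧
      (2 * (a.h : ℝ) + a.p + (2 * b.h + b.p)) * Real.log 2 ≤
        (2 * (q.h : ℝ) + q.p) * Real.log 2 + C₁ ∧
      q.p * Real.log 2 ≤ ((a.p : ℝ) + b.p) * Real.log 2 + (C₁ + 2 * Real.log 32) := by
  obtain ⟨C₁, hC₁, h⟩ := hC 32
  refine ⟨C₁, hC₁, fun w R R₀ R' a b ha hb hR => ?_⟩
  obtain ⟨A, hA⟩ : ∃ A : Fin 2 → Fin 2 → ℝ, A = fun k j => ∑ i, mat b k i * mat a i j := ⟨_, rfl⟩
  have hAx : ∀ (x : Fin 2 → ℝ) (k : Fin 2), ∑ j, A k j * x j = b.co (a.co x) k := by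
    intro x k
    rw [co_eq]
    simp only [co_eq a, hA, Fin.sum_univ_two]
    ring
  have hwR : w ≤ R := by
    have h1 := ha.lo
    have h2 := ha.hi
    omega
  have hAle : ∀ i j, |A i j| ≤ 32 * 2 ^ (a.h + a.p + (b.h + b.p)) := by
    intro i j
    have h1 : |A i j| ≤ |mat b i 0| * |mat a 0 j| + |mat b i 1| * |mat a 1 j| := by
      rw [hA]
      simp only [Fin.sum_univ_two]
      refine (abs_add_le _ _).trans ?_
      rw [abs_mul, abs_mul]
    have h2 : ∀ k, |mat b i k| * |mat a k j| ≤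
        (4 * 2 ^ (b.h + b.p)) * (4 * 2 ^ (a.h + a.p)) := fun k =>
      mul_le_mul (mat_le hb _ _) (mat_le ha _ _) (abs_nonneg _) (by positivity)
    have h3 : (32 : ℝ) * 2 ^ (a.h + a.p + (b.h + b.p)) =
        (4 * 2 ^ (b.h + b.p)) * (4 * 2 ^ (a.h + a.p)) + (4 * 2 ^ (b.h + b.p)) *
          (4 * 2 ^ (a.h + a.p)) := by
      rw [pow_add 2 (a.h + a.p) (b.h + b.p)]
      ring
    rw [h3]
    exact h1.trans (add_le_add (h2 0) (h2 1))
  have hdet : Real.log |A 0 0 * A 1 1 - A 0 1 * A 1 0| =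
      (2 * (a.h : ℝ) + a.p + (2 * b.h + b.p)) * Real.log 2 := by
    have h1 : A 0 0 * A 1 1 - A 0 1 * A 1 0 =
        (mat b 0 0 * mat b 1 1 - mat b 0 1 * mat b 1 0) *
          (mat a 0 0 * mat a 1 1 - mat a 0 1 * mat a 1 0) := by
      rw [hA]
      simp only [Fin.sum_univ_two]
      ring
    rw [h1, abs_mul, mat_det, mat_det, ← pow_add, Real.log_pow]
    push_cast
    ring
  obtain ⟨q, hq, ⟨T, hT, hTx⟩, hv, hp⟩ := h w R A hwR (fun x i => by
      have h1 := co_inv ha x i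
      have h2 := co_inv hb (a.co x) 0
      have h3 := co_inv hb (a.co x) 1
      rw [pow_zero, one_mul] at h2 h3
      rw [hAx, hAx]
      linarith) (fun i j => (hAle i j).trans (by
        refine mul_le_mul_of_nonneg_left (pow_le_pow_right₀ (by norm_num) ?_) (by norm_num)
        have h1 := ha.hi
        have h2 := hb.hi
        omega))
  refine ⟨q, T, hq, hT, fun x i => ?_, ?_, ?_⟩
  · rw [hTx]
    simp only [hAx]
  · rw [← hdet]
    exact hv
  · have h1 := hp _ hAle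
    rw [hdet] at h1
    have h2 : Real.log (32 * 2 ^ (a.h + a.p + (b.h + b.p))) =
        Real.log 32 + ((a.h : ℝ) + a.p + (b.h + b.p)) * Real.log 2 := by
      rw [Real.log_mul (by norm_num) (by positivity), Real.log_pow]
      push_cast
      ring
    rw [h2] at h1
    linarith

/-- The rounded coordinates of the composition. -/
theorem lb_close {C₁ : ℝ} {a b q : Sec} {T : Fin 2 → Fin 2 → ℝ} (hT : ∀ i j, |T i j| ≤ C₁)
    (hco : ∀ (x : Fin 2 → ℝ) (i : Fin 2), q.co x i = ∑ k, T i k * b.co (a.co x) k)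
    {x x' : Fin 2 → ℝ} (h1 : a.lb x = a.lb x')
    (h2 : b.lb (fun i => Int.fract (a.co x i)) = b.lb (fun i => Int.fract (a.co x' i))) (k : Fin 2) :
    |((q.lb x k - q.lb x' k : ℤ) : ℝ)| ≤ 2 * C₁ + 1 := by
  have hC₁ : 0 ≤ C₁ := (abs_nonneg _).trans (hT 0 0)
  have e1 : ∀ k, |b.co (a.co x) k - b.co (a.co x') k| ≤ 1 := by
    intro k
    have e2 : b.co (a.co x) k - b.co (a.co x') k =
        b.co (fun i => Int.fract (a.co x i)) k - b.co (fun i => Int.fract (a.co x' i)) k := by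
      simp only [co_eq b, Fin.sum_univ_two]
      have f0 : (⌊a.co x 0⌋ : ℝ) = ⌊a.co x' 0⌋ := by exact_mod_cast congrFun h1 0
      have f1 : (⌊a.co x 1⌋ : ℝ) = ⌊a.co x' 1⌋ := by exact_mod_cast congrFun h1 1
      unfold Int.fract
      rw [f0, f1]
      ring
    rw [e2]
    have f2 : ⌊b.co (fun i => Int.fract (a.co x i)) k⌋ =
      ⌊b.co (fun i => Int.fract (a.co x' i)) k⌋ := congrFun h2 k
    have g1 := Int.floor_le (b.co (fun i => Int.fract (a.co x i)) k)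
    have g2 := Int.lt_floor_add_one (b.co (fun i => Int.fract (a.co x i)) k)
    have g3 := Int.floor_le (b.co (fun i => Int.fract (a.co x' i)) k)
    have g4 := Int.lt_floor_add_one (b.co (fun i => Int.fract (a.co x' i)) k)
    rw [f2] at g1 g2
    rw [abs_le]
    constructor <;> linarith
  have e3 : |q.co x k - q.co x' k| ≤ 2 * C₁ := by
    rw [hco, hco, ← Finset.sum_sub_distrib, Fin.sum_univ_two]
    have e4 : ∀ i, |T k i * b.co (a.co x) i - T k i * b.co (a.co x') i| ≤ C₁ := by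
      intro i
      rw [← mul_sub, abs_mul]
      calc _ ≤ C₁ * 1 := mul_le_mul (hT k i) (e1 i) (abs_nonneg _) hC₁
        _ = C₁ := mul_one _
    have := abs_add_le (T k 0 * b.co (a.co x) 0 - T k 0 * b.co (a.co x') 0)
      (T k 1 * b.co (a.co x) 1 - T k 1 * b.co (a.co x') 1)
    have := e4 0
    have := e4 1
    linarith
  have g1 := Int.floor_le (q.co x k)
  have g2 := Int.lt_floor_add_one (q.co x k)
  have g3 := Int.floor_le (q.co x' k)
  have g4 := Int.lt_floor_add_one (q.co x' k)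
  change |((⌊q.co x k⌋ - ⌊q.co x' k⌋ : ℤ) : ℝ)| ≤ _
  push_cast
  rw [abs_le] at e3 ⊢
  constructor <;> linarith [e3.1, e3.2]

theorem loc2_of (hC : CONVStmt) : LOC2Stmt := by
  classical
  obtain ⟨C₁, hC₁, hcmp⟩ := cmp_ex hC
  have hl0 : 0 ≤ Real.log (2 * (2 * C₁ + 1) + 1) := Real.log_nonneg (by linarith)
  have hl32 : 0 ≤ Real.log 32 := Real.log_nonneg (by norm_num)
  refine ⟨2 * C₁ + 2 * Real.log 32 + 4 * Real.log (2 * (2 * C₁ + 1) + 1), by positivity, ?_⟩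
  intro κ hκ hκ1 w L R R₀ R' G qC τ hτ hOk hR x hG
  obtain ⟨E, fE, p', hp', pr, q, hPsh, hq, hx⟩ := hG
  have hmarg : Marg p' G.p pr := by
    intro ω
    have h1 := hPsh ω
    rw [show ((loc G qC L τ hτ).trc 0 (Nat.zero_le _)).p ω = G.p ω from rfl] at h1
    rw [← h1]
    unfold law
    rfl
  have hpos : ∀ e, 0 < p' e → 0 < G.p (pr e) := fun e he => hmarg.pos hp'.nonneg he
  -- the composed sections
  have hch : ∀ ab : Sec × Sec, ∃ (r : Sec) (T : Fin 2 → Fin 2 → ℝ),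
      Ok w R₀ ab.1 → Ok 0 R' ab.2 → Ok w R r ∧ (∀ i j, |T i j| ≤ C₁) ∧
      (∀ (x : Fin 2 → ℝ) (i : Fin 2), r.co x i = ∑ k, T i k * ab.2.co (ab.1.co x) k) ∧
      (2 * (ab.1.h : ℝ) + ab.1.p + (2 * ab.2.h + ab.2.p)) * Real.log 2 ≤
        (2 * (r.h : ℝ) + r.p) * Real.log 2 + C₁ ∧
      r.p * Real.log 2 ≤ ((ab.1.p : ℝ) + ab.2.p) * Real.log 2 + (C₁ + 2 * Real.log 32) := by
    intro ab
    by_cases h : Ok w R₀ ab.1 ∧ Ok 0 R' ab.2
    · obtain ⟨r, T, h1, h2, h3, h4, h5⟩ := hcmp w R R₀ R' ab.1 ab.2 h.1 h.2 hR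
      exact ⟨r, T, fun _ _ => ⟨h1, h2, h3, h4, h5⟩⟩
    · exact ⟨⟨false, 0, 0, 0⟩, 0, fun h1 h2 => absurd ⟨h1, h2⟩ h⟩
  choose r T hrT using hch
  refine ⟨E, fE, p', hp', pr, fun e => r (qC (pr e), q e), fun ω => hPsh ω, fun e he =>
    (hrT (qC (pr e), q e) (hOk _ (hpos e he)) (hq e he)).1, ?_⟩
  -- the labels
  obtain ⟨Xc, hXc⟩ : ∃ Xc : E → (ℕ × Sec) × ((Fin 2 → ℤ) × (Fin 2 → ℤ)),
    Xc = fun e => Lab G qC (pr e) := ⟨_, rfl⟩
  obtain ⟨Xl, hXl⟩ : ∃ Xl : E → (ℕ × Sec) × ((Fin 2 → ℤ) × (Fin 2 → ℤ)),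
    Xl = Lab (((loc G qC L τ hτ).trc 0 (Nat.zero_le _)).ext p' hp' pr) q := ⟨_, rfl⟩
  obtain ⟨Z, hZ⟩ : ∃ Z : E → G.ζ, Z = fun e => G.Z (pr e) := ⟨_, rfl⟩
  obtain ⟨b₁, hb₁⟩ : ∃ b₁ : E → Fin 2 → ℤ, b₁ = fun e => (r (qC (pr e), q e)).lb (G.x (pr e)) :=
    ⟨_, rfl⟩
  obtain ⟨b₂, hb₂⟩ : ∃ b₂ : E → Fin 2 → ℤ, b₂ = fun e =>
    (r (qC (pr e), q e)).lb (fun i => G.d (pr e) i / 2 ^ w) := ⟨_, rfl⟩
  have hXn : Lab (G.ext p' hp' pr) (fun e => r (qC (pr e), q e)) =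
      fun e => ((G.T (pr e), r (qC (pr e), q e)), (b₁ e, b₂ e)) := by
    rw [hb₁, hb₂]
    rfl
  -- the data which are determined by the two labels
  have hdet : ∀ e e', (Xl e, Xc e) = (Xl e', Xc e') → G.T (pr e) = G.T (pr e') ∧
      qC (pr e) = qC (pr e') ∧ q e = q e' ∧
      (qC (pr e)).lb (G.x (pr e)) = (qC (pr e)).lb (G.x (pr e')) ∧
      (qC (pr e)).lb (fun i => G.d (pr e) i / 2 ^ w) =
        (qC (pr e)).lb (fun i => G.d (pr e') i / 2 ^ w) ∧
      (q e).lb (fun i => Int.fract ((qC (pr e)).co (G.x (pr e)) i)) =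
        (q e).lb (fun i => Int.fract ((qC (pr e)).co (G.x (pr e')) i)) ∧
      (q e).lb (fun i => Int.fract ((qC (pr e)).co (fun i => G.d (pr e) i / 2 ^ w) i)) =
        (q e).lb (fun i => Int.fract ((qC (pr e)).co (fun i => G.d (pr e') i / 2 ^ w) i)) := by
    intro e e' h
    have h1 := (Prod.ext_iff.mp h).1
    have h2 := (Prod.ext_iff.mp h).2
    simp only at h1 h2
    rw [hXc] at h2
    have a1 := (Prod.ext_iff.mp (Prod.ext_iff.mp h2).1).1
    have a2 := (Prod.ext_iff.mp (Prod.ext_iff.mp h2).1).2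
    have a3 := (Prod.ext_iff.mp (Prod.ext_iff.mp h2).2).1
    have a4 := (Prod.ext_iff.mp (Prod.ext_iff.mp h2).2).2
    simp only [Lab] at a1 a2 a3 a4
    rw [hXl] at h1
    have c2 := (Prod.ext_iff.mp (Prod.ext_iff.mp h1).1).2
    have c3 := (Prod.ext_iff.mp (Prod.ext_iff.mp h1).2).1
    have c4 := (Prod.ext_iff.mp (Prod.ext_iff.mp h1).2).2
    simp only [Lab] at c2 c3 c4
    have hxe : ∀ e, (((loc G qC L τ hτ).trc 0 (Nat.zero_le _)).ext p' hp' pr).x e =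
        fun i => Int.fract ((qC (pr e)).co (G.x (pr e)) i) := by
      intro e
      funext i
      have hT0 : (((loc G qC L τ hτ).trc 0 (Nat.zero_le _)).ext p' hp' pr).t e = 0 := by
        have h0 : (((loc G qC L τ hτ).trc 0 (Nat.zero_le _)).ext p' hp' pr).T e = 0 := by
          show τ (pr e) / 2 ^ (L - 0) = 0
          exact Nat.div_eq_of_lt (hτ _)
        unfold Fam.t
        rw [h0]
        simp
      unfold Fam.x
      rw [hT0, zero_mul, add_zero]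
      rfl
    have hde : ∀ e, (fun i => (((loc G qC L τ hτ).trc 0 (Nat.zero_le _)).ext p' hp' pr).d e i /
        2 ^ 0) = fun i => Int.fract ((qC (pr e)).co (fun i => G.d (pr e) i / 2 ^ w) i) := by
      intro e
      funext i
      rw [pow_zero, div_one]
      rfl
    have d3 : (q e).lb (fun i => Int.fract ((qC (pr e)).co (G.x (pr e)) i)) =
        (q e').lb (fun i => Int.fract ((qC (pr e')).co (G.x (pr e')) i)) :=
      (congrArg (q e).lb (hxe e)).symm.trans (c3.trans (congrArg (q e').lb (hxe e')))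
    have d4 : (q e).lb (fun i => Int.fract ((qC (pr e)).co (fun i => G.d (pr e) i / 2 ^ w) i)) =
        (q e').lb (fun i => Int.fract ((qC (pr e')).co (fun i => G.d (pr e') i / 2 ^ w) i)) :=
      (congrArg (q e).lb (hde e)).symm.trans (c4.trans (congrArg (q e').lb (hde e')))
    rw [← a2] at a3 a4 d3 d4
    rw [← c2] at d3 d4
    exact ⟨a1, a2, c2, a3, a4, d3, d4⟩
  -- the entropy of the composed label
  have hp0 := hp'.nonneg
  have n1 : CH p' (fun e => ((G.T (pr e), r (qC (pr e), q e)), (b₁ e, b₂ e))) Z ≤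
      CH p' Xc Z + CH p' Xl (fun e => (Xc e, Z e)) + 4 * Real.log (2 * (2 * C₁ + 1) + 1) := by
    have m1 := CH_le_add hp0 (fun e => ((G.T (pr e), r (qC (pr e), q e)), (b₁ e, b₂ e)))
      (fun e => (Xl e, Xc e)) Z
    have m2 := CH_chain hp0 Xl Xc Z
    have m3 : CH p' (fun e => ((G.T (pr e), r (qC (pr e), q e)), (b₁ e, b₂ e)))
        (fun e => ((Xl e, Xc e), Z e)) ≤ CH p' (fun e => (b₁ e, b₂ e))
        (fun e => ((Xl e, Xc e), Z e)) := by
      refine CH_mono_left hp0 fun e e' _ _ h => ?_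
      have h1 := (Prod.ext_iff.mp h).1
      have h2 := (Prod.ext_iff.mp (Prod.ext_iff.mp h).2).1
      obtain ⟨a1, a2, a3, -⟩ := hdet e e' h2
      simp only at h1
      simp only [a1, a2, a3, h1]
    have m4 := CH_subadd hp0 b₁ b₂ (fun e => ((Xl e, Xc e), Z e))
    have m5 : CH p' b₁ (fun e => ((Xl e, Xc e), Z e)) ≤
        2 * Real.log (2 * (2 * C₁ + 1) + 1) := by
      have := CH_le_vec hp0 hp'.sum_one b₁ (fun e => ((Xl e, Xc e), Z e)) (fun _ => 2 * C₁ + 1)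
        (fun e e' he _ h k => by
          obtain ⟨a1, a2, a3, a4, -, a6, -⟩ := hdet e e' (Prod.ext_iff.mp h).1
          obtain ⟨-, o2, o3, -⟩ := hrT (qC (pr e), q e) (hOk _ (hpos e he)) (hq e he)
          rw [hb₁]
          simp only [← a2, ← a3]
          exact lb_close o2 o3 a4 a6 k)
      rw [Ex_const hp'.sum_one] at this
      push_cast at this
      exact this
    have m6 : CH p' b₂ (fun e => ((Xl e, Xc e), Z e)) ≤
        2 * Real.log (2 * (2 * C₁ + 1) + 1) := by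
      have := CH_le_vec hp0 hp'.sum_one b₂ (fun e => ((Xl e, Xc e), Z e)) (fun _ => 2 * C₁ + 1)
        (fun e e' he _ h k => by
          obtain ⟨a1, a2, a3, -, a5, -, a7⟩ := hdet e e' (Prod.ext_iff.mp h).1
          obtain ⟨-, o2, o3, -⟩ := hrT (qC (pr e), q e) (hOk _ (hpos e he)) (hq e he)
          rw [hb₂]
          simp only [← a2, ← a3]
          exact lb_close o2 o3 a5 a7 k)
      rw [Ex_const hp'.sum_one] at this
      push_cast at this
      exact this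
    linarith
  -- the volumes
  have n2 : Ex p' (fun e => (2 * ((qC (pr e)).h : ℝ) + (1 - κ) * (qC (pr e)).p) * Real.log 2) +
      Ex p' (fun e => (2 * ((q e).h : ℝ) + (1 - κ) * (q e).p) * Real.log 2) -
      (2 * C₁ + 2 * Real.log 32) ≤
      Ex p' (fun e => (2 * ((r (qC (pr e), q e)).h : ℝ) +
        (1 - κ) * (r (qC (pr e), q e)).p) * Real.log 2) := by
    rw [← Ex_add, ← Ex_const hp'.sum_one (2 * C₁ + 2 * Real.log 32), ← Ex_sub]
    refine Ex_mono hp0 fun e he => ?_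
    obtain ⟨-, -, -, o4, o5⟩ := hrT (qC (pr e), q e) (hOk _ (hpos e he)) (hq e he)
    simp only at o4 o5
    have o6 := mul_le_mul_of_nonneg_left o5 hκ
    have o7 : κ * (C₁ + 2 * Real.log 32) ≤ 1 * (C₁ + 2 * Real.log 32) :=
      mul_le_mul_of_nonneg_right hκ1 (by positivity)
    linarith
  have e1 : Psi κ G qC = w * Real.log 2 +
      Ex p' (fun e => (2 * ((qC (pr e)).h : ℝ) + (1 - κ) * (qC (pr e)).p) * Real.log 2) -
      CH p' Xc Z := by
    rw [hmarg.ex (fun ω => (2 * ((qC ω).h : ℝ) + (1 - κ) * (qC ω).p) * Real.log 2), hXc, hZ,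
      hmarg.CH (Lab G qC) G.Z]
    rfl
  have e2 : Psi κ (((loc G qC L τ hτ).trc 0 (Nat.zero_le _)).ext p' hp' pr) q =
      ((0 : ℕ) : ℝ) * Real.log 2 +
      Ex p' (fun e => (2 * ((q e).h : ℝ) + (1 - κ) * (q e).p) * Real.log 2) -
      CH p' Xl (fun e => (Xc e, Z e)) := by
    rw [hXl, hXc, hZ]
    rfl
  have e3 : Psi κ (G.ext p' hp' pr) (fun e => r (qC (pr e), q e)) = w * Real.log 2 +
      Ex p' (fun e => (2 * ((r (qC (pr e), q e)).h : ℝ) +
        (1 - κ) * (r (qC (pr e), q e)).p) * Real.log 2) -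
      CH p' (fun e => ((G.T (pr e), r (qC (pr e), q e)), (b₁ e, b₂ e))) Z := by
    rw [← hXn, hZ]
    rfl
  rw [e2] at hx
  refine le_trans ?_ (le_of_eq e3.symm)
  rw [e1]
  push_cast at hx
  linarith

end Pool.KM7.L2

/-- **(LOC2)** from (CONV). -/
theorem Pool.KM7.loc2_thm (hC : Pool.KM7.CONVStmt) : Pool.KM7.LOC2Stmt :=
  Pool.KM7.L2.loc2_of hC
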